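import Pool.Agent.Helper8_OPEN.FanGeom

/-!
Module FTR: transfer of the Rayleigh quotients with a complete fan around an interior point.
-/

namespace Pool.Agent.H5O.H8

open MeasureTheory Complex Filter Topology Set Pool.Agent.H16Iso Pool.Agent.H1Gen Pool.Agent.H5O
open scoped NNReal InnerProductSpace

variable {n : ℕ}

/-! ### linear maps between fans -/

/-- the linear map of the cone `j` of the fan `a` onto the cone `j` of the fan `b` -/
noncomputable def La (a b : Fin (n + 3) → ℂ) (j : Fin (n + 3)) : ℂ →L[ℝ] ℂ :=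
  linPQ (((det (a j) (a (j + 1)))⁻¹ : ℝ) • ((a (j + 1)).im • b j - (a j).im • b (j + 1)))
    (((det (a j) (a (j + 1)))⁻¹ : ℝ) • ((a j).re • b (j + 1) - (a (j + 1)).re • b j))

theorem La_apply (a b : Fin (n + 3) → ℂ) (j : Fin (n + 3)) (z : ℂ) :
    La a b j z = ((det (a j) (a (j + 1)))⁻¹ : ℝ) •
      (det z (a (j + 1)) • b j + det (a j) z • b (j + 1)) := by
  unfold La
  rw [linPQ_apply]
  generalize (det (a j) (a (j + 1)))⁻¹ = D
  apply Complex.ext
  · simp only [add_re, smul_re, sub_re, smul_eq_mul, det]; ring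
  · simp only [add_im, smul_im, sub_im, smul_eq_mul, det]; ring

theorem det_La_left (a b : Fin (n + 3) → ℂ) (j : Fin (n + 3)) (z : ℂ) :
    det (b j) (La a b j z) =
      det (b j) (b (j + 1)) / det (a j) (a (j + 1)) * det (a j) z := by
  rw [La_apply, det_smul_right, det_add_right, det_smul_right, det_smul_right, det_self]
  ring

theorem det_La_right (a b : Fin (n + 3) → ℂ) (j : Fin (n + 3)) (z : ℂ) :
    det (La a b j z) (b (j + 1)) =
      det (b j) (b (j + 1)) / det (a j) (a (j + 1)) * det z (a (j + 1)) := by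
  rw [La_apply, det_smul_left, det_add_left, det_smul_left, det_smul_left, det_self]
  ring

theorem La_La {a b : Fin (n + 3) → ℂ} (ha : PosF a) (hb : PosF b) (j : Fin (n + 3)) (z : ℂ) :
    La b a j (La a b j z) = z := by
  have h1 := (ha j).ne'
  have h2 := (hb j).ne'
  rw [La_apply, det_La_left, det_La_right]
  have h3 := cramer h1 z
  conv_rhs => rw [h3]
  rw [smul_add, smul_smul, smul_smul]
  congr 2
  · field_simp
  · field_simp

theorem mem_KF_iff {a b : Fin (n + 3) → ℂ} (ha : PosF a) (hb : PosF b) (j : Fin (n + 3)) (z : ℂ) :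
    z ∈ KF a j ↔ La a b j z ∈ KF b j := by
  have h := div_pos (hb j) (ha j)
  unfold KF
  rw [mem_ofPred_eq, mem_ofPred_eq, det_La_left, det_La_right]
  constructor
  · rintro ⟨h1, h2⟩
    exact ⟨mul_nonneg h.le h1, mul_nonneg h.le h2⟩
  · rintro ⟨h1, h2⟩
    exact ⟨nonneg_of_mul_nonneg_right h1 h, nonneg_of_mul_nonneg_right h2 h⟩

theorem hull_iff {a b : Fin (n + 3) → ℂ} (ha : PosF a) (hb : PosF b) (wa : WC a) (wb : WC b)
    {j : Fin (n + 3)} {z : ℂ} (hz : z ∈ KF a j) :
    z ∈ interior (convexHull ℝ (range a)) ↔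
      La a b j z ∈ interior (convexHull ℝ (range b)) := by
  have h1 := ha j
  have h2 := hb j
  rw [mem_hull_iff ha wa hz, mem_hull_iff hb wb ((mem_KF_iff ha hb j z).1 hz), det_La_left,
    det_La_right, ← mul_add, div_mul_eq_mul_div, div_lt_iff₀ h1, mul_lt_mul_iff_right₀ h2]

theorem La_ray {a : Fin (n + 3) → ℂ} (ha : PosF a) (b : Fin (n + 3) → ℂ) (j : Fin (n + 3))
    (r : ℝ) : La a b j (r • a j) = r • b j := by
  have h1 := (ha j).ne'
  rw [La_apply, det_smul_left, det_smul_right, det_self, mul_zero, zero_smul, add_zero,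
    smul_smul]
  congr 1
  field_simp

theorem La_ray' {a : Fin (n + 3) → ℂ} (ha : PosF a) (b : Fin (n + 3) → ℂ) (j : Fin (n + 3))
    (r : ℝ) : La a b j (r • a (j + 1)) = r • b (j + 1) := by
  have h1 := (ha j).ne'
  rw [La_apply, det_smul_left, det_smul_right, det_self, mul_zero, zero_smul, zero_add,
    smul_smul]
  congr 1
  field_simp

theorem La_compat {a : Fin (n + 3) → ℂ} (ha : PosF a) (wa : WC a) (b : Fin (n + 3) → ℂ)
    {j l : Fin (n + 3)} {z : ℂ} (hj : z ∈ KF a j) (hl : z ∈ KF a l) :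
    La a b j z = La a b l z := by
  by_cases hz : z = 0
  · rw [hz, map_zero, map_zero]
  by_cases hjl : j = l
  · rw [hjl]
  rcases cone_inter ha wa hz hjl hj hl with ⟨h1, r, -, h2⟩ | ⟨h1, r, -, h2⟩
  · subst h1
    rw [h2, La_ray' ha, La_ray ha]
  · subst h1
    rw [h2, La_ray' ha, La_ray ha]

theorem det_La_det (a b : Fin (n + 3) → ℂ) (j : Fin (n + 3)) (ha : det (a j) (a (j + 1)) ≠ 0) :
    det (((det (a j) (a (j + 1)))⁻¹ : ℝ) • ((a (j + 1)).im • b j - (a j).im • b (j + 1)))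
      (((det (a j) (a (j + 1)))⁻¹ : ℝ) • ((a j).re • b (j + 1) - (a (j + 1)).re • b j)) =
      det (b j) (b (j + 1)) / det (a j) (a (j + 1)) := by
  have e : det (((det (a j) (a (j + 1)))⁻¹ : ℝ) • ((a (j + 1)).im • b j - (a j).im • b (j + 1)))
      (((det (a j) (a (j + 1)))⁻¹ : ℝ) • ((a j).re • b (j + 1) - (a (j + 1)).re • b j)) =
      (det (a j) (a (j + 1)))⁻¹ * (det (a j) (a (j + 1)))⁻¹ *
        (det (a j) (a (j + 1)) * det (b j) (b (j + 1))) := by
    rw [det_smul_left, det_smul_right]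
    simp only [det, sub_re, sub_im, smul_re, smul_im, smul_eq_mul]
    ring
  rw [e]
  field_simp

/-! ### hulls of translated and rescaled vertices -/

theorem mem_hull_sub {m : ℕ} (q : Fin m → ℂ) (c z : ℂ) :
    z ∈ interior (convexHull ℝ (range fun j => q j - c)) ↔ z + c ∈ poly q := by
  have h1 : (fun z => z + c) '' convexHull ℝ (range fun j => q j - c) =
      convexHull ℝ (range q) := by
    have h := AffineMap.image_convexHull (AffineMap.id ℝ ℂ + AffineMap.const ℝ ℂ c)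
      (range fun j => q j - c)
    have e1 : (⇑(AffineMap.id ℝ ℂ + AffineMap.const ℝ ℂ c) : ℂ → ℂ) = fun z => z + c := by
      funext z; simp
    rw [e1] at h
    rw [h, ← range_comp]
    congr 2
    funext j
    simp
  unfold poly
  rw [← h1]
  have h2 : interior ((fun z => z + c) '' convexHull ℝ (range fun j => q j - c)) =
      (fun z => z + c) '' interior (convexHull ℝ (range fun j => q j - c)) :=
    ((Homeomorph.addRight c).image_interior _).symm
  rw [h2]
  constructor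
  · intro h
    exact ⟨z, h, rfl⟩
  · rintro ⟨y, hy, hyz⟩
    have : y = z := add_right_cancel hyz
    rw [← this]
    exact hy

/-- `ζ + I ξ ↦ ζ + I ξ / √3` -/
noncomputable def Tm : ℂ ≃L[ℝ] ℂ :=
  eqPQ (p := 1) (q := (Real.sqrt 3)⁻¹ • I) (by
    rw [det_smul_right]
    have : det 1 I = 1 := by simp [det]
    rw [this, mul_one]
    positivity)

theorem Tm_apply (z : ℂ) : Tm z = ⟨z.re, z.im / Real.sqrt 3⟩ := by
  have e : Tm z = z.re • (1 : ℂ) + z.im • ((Real.sqrt 3)⁻¹ • I) := rfl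
  rw [e]
  apply Complex.ext
  · simp only [add_re, smul_re, one_re, I_re, smul_eq_mul, mul_zero, add_zero, mul_one]
  · simp only [add_im, smul_im, one_im, I_im, smul_eq_mul, mul_zero, zero_add, mul_one]
    rw [div_eq_mul_inv]

theorem Tm_oc : Tm oc = ot := by
  rw [Tm_apply]
  unfold oc ot
  have : Real.sqrt 3 ≠ 0 := by positivity
  apply Complex.ext
  · rfl
  · show Real.sqrt 3 / 3 / Real.sqrt 3 = 1 / 3
    field_simp

theorem pt_eq (p : Fin (n + 3) → ℂ) (j : Fin (n + 3)) : pt p j = Tm (p j - oc) := by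
  rw [map_sub, Tm_oc, Tm_apply]
  rfl

theorem det_Tm (z w : ℂ) : det (Tm z) (Tm w) = det z w / Real.sqrt 3 := by
  rw [Tm_apply, Tm_apply]
  simp only [det]
  ring

theorem mem_hull_Tm {m : ℕ} (b : Fin m → ℂ) (z : ℂ) :
    Tm z ∈ interior (convexHull ℝ (range fun j => Tm (b j))) ↔
      z ∈ interior (convexHull ℝ (range b)) := by
  have h1 : Tm '' convexHull ℝ (range b) = convexHull ℝ (range fun j => Tm (b j)) := by
    have h := LinearMap.image_convexHull ((Tm : ℂ →L[ℝ] ℂ) : ℂ →ₗ[ℝ] ℂ) (range b)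
    have e1 : (⇑((Tm : ℂ →L[ℝ] ℂ) : ℂ →ₗ[ℝ] ℂ) : ℂ → ℂ) = ⇑Tm := rfl
    rw [e1] at h
    rw [h, ← range_comp]
    rfl
  have h2 : interior (Tm '' convexHull ℝ (range b)) = Tm '' interior (convexHull ℝ (range b)) :=
    (Tm.toHomeomorph.image_interior _).symm
  rw [← h1, h2]
  constructor
  · rintro ⟨y, hy, hyz⟩
    have := Tm.injective hyz
    rw [← this]
    exact hy
  · intro h
    exact ⟨z, h, rfl⟩

theorem ccw_crn : CCW crn := by
  intro i j k hij hjk
  have h0 : i = 0 := by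
    apply Fin.ext; rw [Fin.lt_def] at hij hjk
    have := k.isLt
    show i.val = 0
    omega
  have h1 : j = 1 := by
    apply Fin.ext; rw [Fin.lt_def] at hij hjk
    have := k.isLt
    show j.val = 1
    omega
  have h2 : k = 2 := by
    apply Fin.ext; rw [Fin.lt_def] at hij hjk
    have := k.isLt
    show k.val = 2
    omega
  rw [h0, h1, h2]
  have : 0 < Real.sqrt 3 := by positivity
  simp [crn, det, this]

theorem mem_poly_crn (z : ℂ) :
    z ∈ poly crn ↔ 0 < z.im ∧ z.re < 1 ∧ z.im < Real.sqrt 3 * z.re := by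
  have h3 : 0 < Real.sqrt 3 := by positivity
  rw [mem_poly_iff ccw_crn, Fin.forall_fin_succ, Fin.forall_fin_succ, Fin.forall_fin_succ]
  have e0 : det (crn (0 + 1) - crn 0) (z - crn 0) = z.im := by
    simp [crn, det]
  have e1 : det (crn (1 + 1) - crn 1) (z - crn 1) = Real.sqrt 3 * (1 - z.re) := by
    have : (1 + 1 : Fin 3) = 2 := rfl
    rw [this]
    simp [crn, det]
    ring
  have e2 : det (crn (2 + 1) - crn 2) (z - crn 2) = Real.sqrt 3 * z.re - z.im := by
    have : (2 + 1 : Fin 3) = 0 := rfl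
    rw [this]
    simp [crn, det]
    ring
  have r1 : (Fin.succ 0 : Fin 3) = 1 := rfl
  have r2 : (Fin.succ (Fin.succ 0) : Fin 3) = 2 := rfl
  rw [r1, r2, e0, e1, e2]
  constructor
  · rintro ⟨h1, h2, h4, -⟩
    refine ⟨h1, ?_, by linarith⟩
    have := (mul_pos_iff_of_pos_left h3).1 h2
    linarith
  · rintro ⟨h1, h2, h4⟩
    exact ⟨h1, mul_pos h3 (by linarith), by linarith, fun i => i.elim0⟩

theorem mem_Tri_Tm (z : ℂ) : Tm z ∈ Tri ↔ z ∈ poly crn := by
  have h3 : 0 < Real.sqrt 3 := by positivity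
  rw [mem_poly_crn, Tm_apply]
  unfold Tri
  rw [mem_ofPred_eq]
  show 0 < z.im / Real.sqrt 3 ∧ z.im / Real.sqrt 3 < z.re ∧ z.re < 1 ↔ _
  rw [div_lt_iff₀ h3, mul_comm z.re]
  constructor
  · rintro ⟨h1, h2, h4⟩
    refine ⟨?_, h4, h2⟩
    by_contra hn
    push Not at hn
    exact absurd h1 (not_lt.2 (div_nonpos_of_nonpos_of_nonneg hn h3.le))
  · rintro ⟨h1, h2, h4⟩
    exact ⟨div_pos h1 h3, h4, h2⟩

theorem oc_mem : oc ∈ poly crn := by
  rw [mem_poly_crn]
  have h3 : 0 < Real.sqrt 3 := by positivity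
  unfold oc
  refine ⟨?_, ?_, ?_⟩
  · show 0 < Real.sqrt 3 / 3
    positivity
  · show (2 / 3 : ℝ) < 1
    norm_num
  · show Real.sqrt 3 / 3 < Real.sqrt 3 * (2 / 3)
    linarith

theorem mem_hull_pt {p : Fin (n + 3) → ℂ} (hp : Flat p) (z : ℂ) :
    z ∈ interior (convexHull ℝ (range (pt p))) ↔ z + ot ∈ Tri := by
  obtain ⟨y, rfl⟩ := Tm.surjective z
  have h1 : pt p = fun j => Tm (p j - oc) := funext (pt_eq p)
  rw [h1, mem_hull_Tm (fun j => p j - oc), mem_hull_sub, hp.2.2.1, ← Tm_oc, ← map_add, mem_Tri_Tm]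

theorem fpos_of_flat {p : Fin (n + 3) → ℂ} (hp : Flat p) : FPos p := by
  intro j
  have hw : p (j + 1) - p j ≠ 0 := by
    intro h
    exact succ_ne j (hp.2.1 (sub_eq_zero.1 h))
  have h0 : oc ∈ interior (convexHull ℝ (range p)) := by
    have := oc_mem
    rw [← hp.2.2.1] at this
    exact this
  have h1 := strict_of_interior (S := convexHull ℝ (range p)) (c := p j) hw
    (hull_det_nonneg (side_nonneg hp.1 j)) h0
  have e : det (p (j + 1) - p j) (oc - p j) = det (p j - oc) (p (j + 1) - oc) := by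
    simp only [det, sub_re, sub_im]; ring
  rw [← e]
  exact h1

theorem posF_pt {p : Fin (n + 3) → ℂ} (hp : Flat p) : PosF (pt p) := by
  intro j
  rw [pt_eq, pt_eq, det_Tm]
  exact div_pos (fpos_of_flat hp j) (by positivity)

theorem wc_sub {q : Fin (n + 3) → ℂ} (hq : WC q) (c : ℂ) : WC fun j => q j - c := by
  intro i j k hij hjk
  have := hq i j k hij hjk
  simpa using this

theorem wc_pt {p : Fin (n + 3) → ℂ} (hp : Flat p) : WC (pt p) := by
  intro i j k hij hjk
  rw [pt_eq, pt_eq, pt_eq, ← map_sub, ← map_sub, det_Tm]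
  refine div_nonneg ?_ (by positivity)
  have := hp.1 i j k hij hjk
  simpa using this

/-! ### transport of functions -/

/-- transport of Lipschitz functions along a piecewise Lipschitz map -/
theorem transportA {ι : Type*} [Fintype ι] [DecidableEq ι] {A : ι → Set ℂ}
    (hA : ∀ j, IsClosed (A j)) (R : ι → ℂ → ℂ) (C : ι → ℝ≥0)
    (hR : ∀ j, LipschitzWith (C j) (R j)) {Ω Ω' : Set ℂ} (hΩ : IsOpen Ω)
    (hb : Bornology.IsBounded Ω) (hcov : ∀ z ∈ Ω, ∃ j, z ∈ A j)
    (hiff : ∀ j, ∀ z ∈ A j, (z ∈ Ω ↔ R j z ∈ Ω'))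
    (hcomp : ∀ z ∈ Ω, ∀ j l, z ∈ A j → z ∈ A l → R j z = R l z) (w : LZ Ω') :
    ∃ u : LZ Ω, ∀ j, ∀ z ∈ A j, ((u : LipC) : ℂ → ℝ) z = ((w : LipC) : ℂ → ℝ) (R j z) := by
  classical
  set f : ℂ → ℝ := ((w : LipC) : ℂ → ℝ) with hf
  have hw0 : ∀ z ∉ Ω', f z = 0 := w.2
  obtain ⟨⟨K, hK⟩, -⟩ := (w : LipC).2
  set g : ℂ → ℝ := fun z => if h : ∃ j, z ∈ A j then f (R h.choose z) else 0 with hg
  have hgA : ∀ j, ∀ z ∈ A j, g z = f (R j z) := by
    intro j z hz
    have hex : ∃ j, z ∈ A j := ⟨j, hz⟩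
    simp only [hg, dif_pos hex]
    by_cases hzΩ : z ∈ Ω
    · rw [hcomp z hzΩ _ j hex.choose_spec hz]
    · rw [hw0 _ (fun h => hzΩ ((hiff j z hz).2 h)),
        hw0 _ (fun h => hzΩ ((hiff _ z hex.choose_spec).2 h))]
  have hg0 : ∀ z ∉ Ω, g z = 0 := by
    intro z hz
    by_cases hex : ∃ j, z ∈ A j
    · obtain ⟨j, hj⟩ := hex
      rw [hgA j z hj, hw0 _ (fun h => hz ((hiff j z hj).2 h))]
    · simp only [hg, dif_neg hex]
  have hLip : LipschitzWith (K * ∑ j, C j) g := by
    refine lip_cover (ι := Option ι) (F := fun o => o.elim Ωᶜ A) Finset.univ ?_ ?_ ?_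
    · rintro (_ | j) _
      · exact hΩ.isClosed_compl
      · exact hA j
    · intro z
      by_cases hz : z ∈ Ω
      · obtain ⟨j, hj⟩ := hcov z hz
        exact ⟨some j, Finset.mem_univ _, hj⟩
      · exact ⟨none, Finset.mem_univ _, hz⟩
    · rintro (_ | j) _
      · apply LipschitzOnWith.of_dist_le_mul
        intro x hx y hy
        rw [hg0 x hx, hg0 y hy, dist_self]
        positivity
      · apply LipschitzOnWith.of_dist_le_mul
        intro x hx y hy
        rw [hgA j x hx, hgA j y hy]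
        calc dist (f (R j x)) (f (R j y)) ≤ K * dist (R j x) (R j y) := hK.dist_le_mul _ _
          _ ≤ K * (C j * dist x y) := by
              gcongr
              exact (hR j).dist_le_mul _ _
          _ ≤ K * ((∑ j, C j : ℝ≥0) * dist x y) := by
              gcongr
              exact_mod_cast Finset.single_le_sum (f := fun j => C j) (fun _ _ => zero_le)
                (Finset.mem_univ j)
          _ = ((K * ∑ j, C j : ℝ≥0) : ℝ) * dist x y := by push_cast; ring
  have hcs : HasCompactSupport g := by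
    refine HasCompactSupport.intro hb.isCompact_closure ?_
    intro z hz
    exact hg0 z fun h => hz (subset_closure h)
  exact ⟨⟨⟨g, ⟨_, hLip⟩, hcs⟩, hg0⟩, hgA⟩

/-- the affine map on the sector number `j` -/
noncomputable def Rm (a b : Fin (n + 3) → ℂ) (o o' : ℂ) (j : Fin (n + 3)) (z : ℂ) : ℂ :=
  La a b j (z - o) + o'

theorem Rm_lip (a b : Fin (n + 3) → ℂ) (o o' : ℂ) (j : Fin (n + 3)) :
    LipschitzWith ‖La a b j‖₊ (Rm a b o o' j) := by
  apply LipschitzWith.of_dist_le_mul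
  intro x y
  unfold Rm
  rw [dist_add_right]
  refine ((La a b j).lipschitz.dist_le_mul _ _).trans ?_
  rw [dist_sub_right]

theorem exists_push_gen {a b : Fin (n + 3) → ℂ} (ha : PosF a) (hb : PosF b) (wa : WC a)
    (wb : WC b) {o o' : ℂ} {Ω Ω' : Set ℂ} (hΩ : IsOpen Ω) (hbd : Bornology.IsBounded Ω)
    (h1 : ∀ z, z ∈ interior (convexHull ℝ (range a)) ↔ z + o ∈ Ω)
    (h2 : ∀ z, z ∈ interior (convexHull ℝ (range b)) ↔ z + o' ∈ Ω') (u : LZ Ω') :
    ∃ w : LZ Ω, ∀ j, ∀ z, z - o ∈ KF a j →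
      ((w : LipC) : ℂ → ℝ) z = ((u : LipC) : ℂ → ℝ) (Rm a b o o' j z) := by
  obtain ⟨w, hw⟩ := transportA (A := fun j => {z | z - o ∈ KF a j})
    (fun j => (isClosed_KF a j).preimage (by fun_prop)) (Rm a b o o') _ (Rm_lip a b o o')
    (Ω := Ω) (Ω' := Ω') hΩ hbd (fun z _ => exists_KF ha (z - o)) (by
      intro j z hz
      have h3 := h1 (z - o)
      rw [sub_add_cancel] at h3
      rw [← h3, hull_iff ha hb wa wb hz, h2]
      rfl) (by
      intro z _ j l hj hl
      unfold Rm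
      rw [La_compat ha wa b hj hl]) u
  exact ⟨w, hw⟩

/-! ### the forms -/

/-- the fan of `q` -/
noncomputable def bq (q : Fin (n + 3) → ℂ) (k : Fin (n + 3)) : ℂ := q k - oc

/-- the integrand on the reference triangle -/
noncomputable def igF (p q : Fin (n + 3) → ℂ) (t : ℝ) (j : Fin (n + 3)) (w w' : ℂ → ℝ)
    (z : ℂ) : ℝ :=
  c1F p q j * (fderiv ℝ w z 1 * fderiv ℝ w' z 1) +
    c2F p q j * (fderiv ℝ w z I * fderiv ℝ w' z 1 + fderiv ℝ w z 1 * fderiv ℝ w' z I) +
    c3F p q j * (fderiv ℝ w z I * fderiv ℝ w' z I) - t * (cJF p q j * (w z * w' z))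

theorem qf_eqF (M : Model) (p q : Fin (n + 3) → ℂ) (t : ℝ) (w w' : LZ Tri) :
    qf (BopF M p q) (CopF M p q) t (M.coef w) (M.coef w') =
      ∑ j, ∫ z in Tri ∩ secF p j, igF p q t j (w : LipC) (w' : LipC) z := by
  have hB : ⟪BopF M p q (M.coef w), M.coef w'⟫_ℝ = ∑ j,
      (c1F p q j * ⟪cut (secF p j) (measurableSet_secF p j) (M.D1 (M.coef w)),
          M.D1 (M.coef w')⟫_ℝ +
        c2F p q j * (⟪cut (secF p j) (measurableSet_secF p j) (M.D2 (M.coef w)),
            M.D1 (M.coef w')⟫_ℝ +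
          ⟪cut (secF p j) (measurableSet_secF p j) (M.D1 (M.coef w)), M.D2 (M.coef w')⟫_ℝ) +
        c3F p q j * ⟪cut (secF p j) (measurableSet_secF p j) (M.D2 (M.coef w)),
          M.D2 (M.coef w')⟫_ℝ) := by
    unfold BopF
    rw [sum_apply, sum_inner]
    refine Finset.sum_congr rfl fun j _ => ?_
    simp only [add_apply, smul_apply, inner_add_left,
      real_inner_smul_left, ContinuousLinearMap.comp_apply,
      ContinuousLinearMap.adjoint_inner_left]
  have hC : ⟪CopF M p q (M.coef w), M.coef w'⟫_ℝ = ∑ j,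
      cJF p q j * ⟪cut (secF p j) (measurableSet_secF p j) (M.D0 (M.coef w)),
        M.D0 (M.coef w')⟫_ℝ := by
    unfold CopF
    rw [sum_apply, sum_inner]
    refine Finset.sum_congr rfl fun j _ => ?_
    simp only [smul_apply, real_inner_smul_left,
      ContinuousLinearMap.comp_apply, ContinuousLinearMap.adjoint_inner_left]
  have hq : qf (BopF M p q) (CopF M p q) t (M.coef w) (M.coef w') =
      ⟪BopF M p q (M.coef w), M.coef w'⟫_ℝ - t * ⟪CopF M p q (M.coef w), M.coef w'⟫_ℝ := rfl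
  rw [hq, hB, hC, Finset.mul_sum, ← Finset.sum_sub_distrib]
  refine Finset.sum_congr rfl fun j _ => ?_
  simp only [inner_cut]
  have hint : ∀ f g : L2T, IntegrableOn (fun z => f z * g z) (Tri ∩ secF p j) := fun f g =>
    (integrable_prod f g).mono_set inter_subset_left
  have i11 := hint (M.D1 (M.coef w)) (M.D1 (M.coef w'))
  have i21 := hint (M.D2 (M.coef w)) (M.D1 (M.coef w'))
  have i12 := hint (M.D1 (M.coef w)) (M.D2 (M.coef w'))
  have i22 := hint (M.D2 (M.coef w)) (M.D2 (M.coef w'))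
  have i00 := hint (M.D0 (M.coef w)) (M.D0 (M.coef w'))
  have hsum : ∫ z in Tri ∩ secF p j, igF p q t j (w : LipC) (w' : LipC) z =
      ∫ z in Tri ∩ secF p j,
        (c1F p q j * (M.D1 (M.coef w) z * M.D1 (M.coef w') z) +
          c2F p q j * (M.D2 (M.coef w) z * M.D1 (M.coef w') z +
            M.D1 (M.coef w) z * M.D2 (M.coef w') z) +
          c3F p q j * (M.D2 (M.coef w) z * M.D2 (M.coef w') z) -
          t * (cJF p q j * (M.D0 (M.coef w) z * M.D0 (M.coef w') z))) := by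
    refine integral_congr_ae ?_
    have hmono : ae (volume.restrict (Tri ∩ secF p j)) ≤ ae (volume.restrict Tri) :=
      ae_mono (Measure.restrict_mono inter_subset_left le_rfl)
    filter_upwards [hmono (M.D0_coef w), hmono (M.D0_coef w'), hmono (M.D1_coef w),
      hmono (M.D1_coef w'), hmono (M.D2_coef w), hmono (M.D2_coef w')] with z h1 h2 h3 h4 h5 h6
    rw [h1, h2, h3, h4, h5, h6]
    rfl
  rw [hsum, integral_sub, integral_add, integral_add]
  · rw [integral_const_mul, integral_const_mul, integral_const_mul, integral_const_mul,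
      integral_const_mul, integral_add i21 i12]
  · exact i11.const_mul _
  · exact (i21.add i12).const_mul _
  · exact (i11.const_mul _).add ((i21.add i12).const_mul _)
  · exact i22.const_mul _
  · exact ((i11.const_mul _).add ((i21.add i12).const_mul _)).add (i22.const_mul _)
  · exact (i00.const_mul _).const_mul _

theorem isOpen_secF (p : Fin (n + 3) → ℂ) (j : Fin (n + 3)) : IsOpen (secF p j) := by
  have h1 : IsOpen {z : ℂ | 0 < det (pt p j) (z - ot)} :=
    isOpen_lt continuous_const (by unfold det; fun_prop)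
  have h2 : IsOpen {z : ℂ | 0 < det (z - ot) (pt p (j + 1))} :=
    isOpen_lt continuous_const (by unfold det; fun_prop)
  exact h1.inter h2

theorem secF_subset (p : Fin (n + 3) → ℂ) (j : Fin (n + 3)) {z : ℂ} (hz : z ∈ secF p j) :
    z - ot ∈ KF (pt p) j := ⟨hz.1.le, hz.2.le⟩

/-- the map of the sector `j` -/
noncomputable def RR (p q : Fin (n + 3) → ℂ) (j : Fin (n + 3)) (z : ℂ) : ℂ :=
  Rm (pt p) (bq q) ot oc j z

theorem cJF_eq {p : Fin (n + 3) → ℂ} (hp : PosF (pt p)) (q : Fin (n + 3) → ℂ)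
    (j : Fin (n + 3)) :
    cJF p q j = det (bq q j) (bq q (j + 1)) / det (pt p j) (pt p (j + 1)) :=
  det_La_det (pt p) (bq q) j (hp j).ne'

theorem cJF_pos {p q : Fin (n + 3) → ℂ} (hp : PosF (pt p)) (hq : PosF (bq q))
    (j : Fin (n + 3)) : 0 < cJF p q j := by
  rw [cJF_eq hp]
  exact div_pos (hq j) (hp j)

theorem La_eq (p q : Fin (n + 3) → ℂ) (j : Fin (n + 3)) :
    La (pt p) (bq q) j = linPQ (alF p (fun k => q k - oc) j) (beF p (fun k => q k - oc) j) := rfl

/-- change of variables on one sector -/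
theorem sector_integralF {p q : Fin (n + 3) → ℂ} (hp : PosF (pt p)) (hq : PosF (bq q)) (t : ℝ)
    (j : Fin (n + 3)) (u u' w w' : ℂ → ℝ)
    (hw : ∀ z, z - ot ∈ KF (pt p) j → w z = u (RR p q j z))
    (hw' : ∀ z, z - ot ∈ KF (pt p) j → w' z = u' (RR p q j z)) :
    ∫ z in Tri ∩ secF p j, igF p q t j w w' z =
      ∫ z in RR p q j '' (Tri ∩ secF p j), bt t u u' z := by
  have hJ := cJF_pos hp hq j
  have hS : IsOpen (Tri ∩ secF p j) := isOpen_TriTG.inter (isOpen_secF p j)
  have hdJ : det (alF p (fun k => q k - oc) j) (beF p (fun k => q k - oc) j) = cJF p q j := rfl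
  have hd : det (alF p (fun k => q k - oc) j) (beF p (fun k => q k - oc) j) ≠ 0 := hJ.ne'
  have hRd : ∀ z, HasFDerivAt (RR p q j) (La (pt p) (bq q) j) z := by
    intro z
    unfold RR Rm
    exact ((La (pt p) (bq q) j).hasFDerivAt.comp z ((hasFDerivAt_id z).sub_const ot)).add_const oc
  rw [integral_image_eq_integral_abs_det_fderiv_smul volume hS.measurableSet
    (f' := fun _ => La (pt p) (bq q) j) (fun z _ => (hRd z).hasFDerivWithinAt)
    (fun a _ b _ h => by
      unfold RR Rm at h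
      have h1 := add_right_cancel h
      have h2 := congrArg (La (bq q) (pt p) j) h1
      rw [La_La hp hq, La_La hp hq] at h2
      exact sub_left_injective h2)]
  refine setIntegral_congr_fun hS.measurableSet fun z hz => ?_
  have key : ∀ {u w : ℂ → ℝ}, (∀ z, z - ot ∈ KF (pt p) j → w z = u (RR p q j z)) → ∀ v,
      fderiv ℝ w z v = fderiv ℝ u (RR p q j z) (La (pt p) (bq q) j v) := by
    intro u w hw v
    have h1 : w =ᶠ[𝓝 z] fun x => u (eqPQ hd (x - ot) + oc) := by
      filter_upwards [hS.mem_nhds hz] with y hy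
      exact hw y (secF_subset p j hy.2)
    rw [h1.fderiv_eq]
    have h2 : fderiv ℝ (fun x => u (eqPQ hd (x - ot) + oc)) z =
        fderiv ℝ (fun y => u (eqPQ hd y + oc)) (z - ot) :=
      fderiv_comp_sub (f := fun y => u (eqPQ hd y + oc)) ot
    have h3 : fderiv ℝ (fun y => u (eqPQ hd y + oc)) (z - ot) =
        (fderiv ℝ (fun y => u (y + oc)) (eqPQ hd (z - ot))).comp (eqPQ hd : ℂ →L[ℝ] ℂ) :=
      (eqPQ hd).comp_right_fderiv (f := fun y => u (y + oc)) (x := z - ot)
    have h4 : fderiv ℝ (fun y => u (y + oc)) (eqPQ hd (z - ot)) =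
        fderiv ℝ u (eqPQ hd (z - ot) + oc) := fderiv_comp_add_right (f := u) oc
    rw [h2, h3, h4]
    rfl
  have hdet : (La (pt p) (bq q) j).det = cJF p q j := by
    rw [La_eq]
    exact linPQ_det _ _
  have hL1 : La (pt p) (bq q) j 1 = alF p (fun k => q k - oc) j := by
    rw [La_eq, linPQ_apply]; simp
  have hLI : La (pt p) (bq q) j I = beF p (fun k => q k - oc) j := by
    rw [La_eq, linPQ_apply]; simp
  have hzA := secF_subset p j hz.2
  simp only [igF, bt, key hw, key hw', hL1, hLI, hdet, abs_of_pos hJ, smul_eq_mul, hw z hzA,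
    hw' z hzA]
  exact pointwise hdJ hJ.ne' _ _ t _

/-- the images of the sectors -/
def DeF (p q : Fin (n + 3) → ℂ) (j : Fin (n + 3)) : Set ℂ := RR p q j '' (Tri ∩ secF p j)

theorem isOpen_DeF {p q : Fin (n + 3) → ℂ} (hp : PosF (pt p)) (hq : PosF (bq q))
    (j : Fin (n + 3)) : IsOpen (DeF p q j) := by
  have hd : det (alF p (fun k => q k - oc) j) (beF p (fun k => q k - oc) j) ≠ 0 :=
    (cJF_pos hp hq j).ne'
  have hR : RR p q j =
      ((Homeomorph.subRight ot).trans (eqPQ hd).toHomeomorph).trans (Homeomorph.addRight oc) := by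
    funext z
    rfl
  unfold DeF
  rw [hR]
  exact Homeomorph.isOpenMap _ _ (isOpen_TriTG.inter (isOpen_secF p j))

theorem DeF_disjoint {p q : Fin (n + 3) → ℂ} (hp : PosF (pt p)) (hq : PosF (bq q))
    (wq : WC (bq q)) : Pairwise (Function.onFun Disjoint (DeF p q)) := by
  intro j l hjl
  show Disjoint (DeF p q j) (DeF p q l)
  rw [Set.disjoint_left]
  rintro _ ⟨z, ⟨-, hzs⟩, rfl⟩ ⟨y, ⟨-, hys⟩, hyz⟩
  apply hjl
  have hpos : ∀ i, 0 < det (bq q i) (bq q (i + 1)) / det (pt p i) (pt p (i + 1)) := fun i =>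
    div_pos (hq i) (hp i)
  have hyz' : La (pt p) (bq q) l (y - ot) = La (pt p) (bq q) j (z - ot) := by
    unfold RR Rm at hyz
    exact add_right_cancel hyz
  refine open_disjoint hq wq (z := La (pt p) (bq q) j (z - ot)) ⟨?_, ?_⟩ ⟨?_, ?_⟩
  · rw [det_La_left]; exact mul_pos (hpos j) hzs.1
  · rw [det_La_right]; exact mul_pos (hpos j) hzs.2
  · rw [← hyz', det_La_left]; exact mul_pos (hpos l) hys.1
  · rw [← hyz', det_La_right]; exact mul_pos (hpos l) hys.2

theorem mem_DeF {p q : Fin (n + 3) → ℂ} (hp : Flat p) (hq : PosF (bq q)) (wq : WC (bq q))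
    {z : ℂ} (hz : z ∈ poly q) (hne : ∀ j, det (bq q j) (z - oc) ≠ 0) : ∃ j, z ∈ DeF p q j := by
  have ha := posF_pt hp
  have wa := wc_pt hp
  obtain ⟨j, hj⟩ := exists_KF hq (z - oc)
  set A := La (bq q) (pt p) j (z - oc) with hA
  have hLA : La (pt p) (bq q) j A = z - oc := La_La hq ha j (z - oc)
  have hAK : A ∈ KF (pt p) j := (mem_KF_iff hq ha j _).1 hj
  have hT : A + ot ∈ Tri := by
    rw [← mem_hull_pt hp, hull_iff ha hq wa wq hAK, hLA]
    have := mem_hull_sub q oc (z - oc)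
    rw [sub_add_cancel] at this
    exact this.2 hz
  have hpos : 0 < det (bq q j) (bq q (j + 1)) / det (pt p j) (pt p (j + 1)) :=
    div_pos (hq j) (ha j)
  refine ⟨j, A + ot, ⟨hT, ?_, ?_⟩, ?_⟩
  · rw [add_sub_cancel_right]
    have h1 := det_La_left (pt p) (bq q) j A
    rw [hLA] at h1
    refine lt_of_le_of_ne hAK.1 fun h => hne j ?_
    rw [h1, ← h, mul_zero]
  · rw [add_sub_cancel_right]
    have h1 := det_La_right (pt p) (bq q) j A
    rw [hLA] at h1
    refine lt_of_le_of_ne hAK.2 fun h => hne (j + 1) ?_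
    rw [det_swap, h1, ← h, mul_zero, neg_zero]
  · unfold RR Rm
    rw [add_sub_cancel_right, hLA, sub_add_cancel]

theorem ae_det_ne_sub {a : ℂ} (ha : a ≠ 0) (c : ℂ) : ∀ᵐ z : ℂ, det a (z - c) ≠ 0 :=
  (measurePreserving_sub_right (volume : Measure ℂ) c).quasiMeasurePreserving.ae (ae_det_ne ha)

theorem form_eqF {p q : Fin (n + 3) → ℂ} (hp : Flat p) (hq : PosF (bq q)) (wq : WC (bq q))
    (t : ℝ) (u u' : LZ (poly q)) :
    B t (u : LipC) (u' : LipC) = ∑ j, ∫ z in DeF p q j, bt t (u : LipC) (u' : LipC) z := by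
  have ha := posF_pt hp
  rw [form_apply, Measure.restrict_univ]
  have hint := integrable_bt (u : LipC).2 (u' : LipC).2 t
  rw [← integral_iUnion_fintype (fun j => (isOpen_DeF ha hq j).measurableSet)
    (DeF_disjoint ha hq wq) (fun j => hint.integrableOn)]
  symm
  apply setIntegral_eq_integral_of_ae_compl_eq_zero
  have hne : ∀ j, bq q j ≠ 0 := by
    intro j h
    have := hq j
    rw [h, det_zero_left] at this
    exact lt_irrefl _ this
  have h1 : ∀ᵐ z : ℂ, ∀ j : Fin (n + 3), det (bq q j) (z - oc) ≠ 0 :=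
    ae_all_iff.2 fun j => ae_det_ne_sub (hne j) oc
  have hconv : Convex ℝ (poly q) := (convex_convexHull ℝ _).interior
  have h2 : ∀ᵐ z : ℂ, z ∉ frontier (poly q) := by
    rw [ae_iff]
    simpa using hconv.addHaar_frontier volume
  filter_upwards [h1, h2] with z hz1 hz2 hz3
  have hzP : z ∉ poly q := by
    intro h
    obtain ⟨j, hj⟩ := mem_DeF hp hq wq h hz1
    exact hz3 (mem_iUnion.2 ⟨j, hj⟩)
  have hzc : z ∉ closure (poly q) := by
    intro h
    apply hz2
    rw [frontier, Set.mem_sdiff]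
    exact ⟨h, fun h' => hzP (interior_subset h')⟩
  have hnhds : (closure (poly q))ᶜ ∈ 𝓝 z := isClosed_closure.isOpen_compl.mem_nhds hzc
  have hev : ∀ v : LZ (poly q), ((v : LipC) : ℂ → ℝ) =ᶠ[𝓝 z] fun _ => (0 : ℝ) := by
    intro v
    filter_upwards [hnhds] with y hy
    exact v.2 y fun h => hy (subset_closure h)
  rw [bt, (hev u).fderiv_eq, (hev u).eq_of_nhds]
  simp

theorem form_eq_qfF (M : Model) {p q : Fin (n + 3) → ℂ} (hp : Flat p) (hq : PosF (bq q))
    (wq : WC (bq q)) (t : ℝ) (u u' : LZ (poly q)) (w w' : LZ Tri)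
    (hw : ∀ j, ∀ z, z - ot ∈ KF (pt p) j →
      ((w : LipC) : ℂ → ℝ) z = ((u : LipC) : ℂ → ℝ) (RR p q j z))
    (hw' : ∀ j, ∀ z, z - ot ∈ KF (pt p) j →
      ((w' : LipC) : ℂ → ℝ) z = ((u' : LipC) : ℂ → ℝ) (RR p q j z)) :
    B t (u : LipC) (u' : LipC) = qf (BopF M p q) (CopF M p q) t (M.coef w) (M.coef w') := by
  rw [form_eqF hp hq wq, qf_eqF]
  refine Finset.sum_congr rfl fun j _ => ?_
  exact (sector_integralF (posF_pt hp) hq t j _ _ _ _ (hw j) (hw' j)).symm

theorem exists_pullF {p q : Fin (n + 3) → ℂ} (hp : Flat p) (hq : PosF (bq q))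
    (wq : WC (bq q)) (u : LZ (poly q)) :
    ∃ w : LZ Tri, ∀ j, ∀ z, z - ot ∈ KF (pt p) j →
      ((w : LipC) : ℂ → ℝ) z = ((u : LipC) : ℂ → ℝ) (RR p q j z) :=
  exists_push_gen (posF_pt hp) hq (wc_pt hp) wq isOpen_TriTG isBounded_Tri (mem_hull_pt hp)
    (mem_hull_sub q oc) u

theorem exists_pushF {p q : Fin (n + 3) → ℂ} (hp : Flat p) (hq : PosF (bq q))
    (wq : WC (bq q)) (w : LZ Tri) :
    ∃ u : LZ (poly q), ∀ j, ∀ z, z - ot ∈ KF (pt p) j →
      ((w : LipC) : ℂ → ℝ) z = ((u : LipC) : ℂ → ℝ) (RR p q j z) := by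
  obtain ⟨u, hu⟩ := exists_push_gen hq (posF_pt hp) wq (wc_pt hp) (Ω := poly q)
    isOpen_interior (isBounded_poly q) (mem_hull_sub q oc) (mem_hull_pt hp) w
  refine ⟨u, fun j z hz => ?_⟩
  have h1 : RR p q j z - oc = La (pt p) (bq q) j (z - ot) := by
    unfold RR Rm
    rw [add_sub_cancel_right]
  have h2 : RR p q j z - oc ∈ KF (bq q) j := by
    rw [h1, ← mem_KF_iff (posF_pt hp) hq]
    exact hz
  rw [hu j _ h2]
  unfold Rm
  rw [h1, La_La (posF_pt hp) hq, sub_add_cancel]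

/-- Module FTR -/
theorem ftr : FtrStatement := by
  intro M n p q hp hwq hfq t k
  have hq : PosF (bq q) := hfq
  have wq : WC (bq q) := wc_sub hwq oc
  constructor
  · rintro ⟨b, hb, hneg⟩
    have hex : ∀ i, ∃ w : LZ Tri, ∀ j, ∀ z, z - ot ∈ KF (pt p) j →
        ((w : LipC) : ℂ → ℝ) z = ((b i : LipC) : ℂ → ℝ) (RR p q j z) := fun i =>
      exists_pullF hp hq wq ⟨b i, hb i⟩
    choose w hw using hex
    refine ⟨fun i => M.coef (w i), fun i => trivial, ?_⟩
    have e1 : (fun i j => qf (BopF M p q) (CopF M p q) t (M.coef (w i)) (M.coef (w j))) =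
        fun i j => B t (b i) (b j) := by
      funext i j
      exact (form_eq_qfF M hp hq wq t ⟨b i, hb i⟩ ⟨b j, hb j⟩ (w i) (w j) (hw i) (hw j)).symm
    rw [e1]
    exact hneg
  · rintro ⟨f, -, hneg⟩
    have hseq : ∀ i, ∃ w : ℕ → LZ Tri, Tendsto (fun n => M.coef (w n)) atTop (𝓝 (f i)) := by
      intro i
      obtain ⟨y, hy, hlim⟩ := mem_closure_iff_seq_limit.1 ((coef_dense M) (f i))
      choose w hw using hy
      exact ⟨w, by simpa [hw] using hlim⟩
    choose w hw using hseq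
    have hqc : ∀ i j, Tendsto (fun n => qf (BopF M p q) (CopF M p q) t (M.coef (w i n))
        (M.coef (w j n))) atTop (𝓝 (qf (BopF M p q) (CopF M p q) t (f i) (f j))) := by
      intro i j
      have h1 : Tendsto (fun n => ⟪BopF M p q (M.coef (w i n)), M.coef (w j n)⟫_ℝ) atTop
          (𝓝 ⟪BopF M p q (f i), f j⟫_ℝ) :=
        ((((BopF M p q).continuous.tendsto _).comp (hw i)).inner (hw j))
      have h2 : Tendsto (fun n => ⟪CopF M p q (M.coef (w i n)), M.coef (w j n)⟫_ℝ) atTop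
          (𝓝 ⟪CopF M p q (f i), f j⟫_ℝ) :=
        ((((CopF M p q).continuous.tendsto _).comp (hw i)).inner (hw j))
      exact h1.sub (h2.const_mul t)
    obtain ⟨n, hn⟩ := (hneg.eventually hqc).exists
    have hex : ∀ i, ∃ u : LZ (poly q), ∀ j, ∀ z, z - ot ∈ KF (pt p) j →
        ((w i n : LipC) : ℂ → ℝ) z = ((u : LipC) : ℂ → ℝ) (RR p q j z) := fun i =>
      exists_pushF hp hq wq (w i n)
    choose u hu using hex
    refine ⟨fun i => u i, fun i => (u i).2, ?_⟩
    have e1 : (fun i j => B t (u i : LipC) (u j : LipC)) =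
        fun i j => qf (BopF M p q) (CopF M p q) t (M.coef (w i n)) (M.coef (w j n)) := by
      funext i j
      exact form_eq_qfF M hp hq wq t (u i) (u j) (w i n) (w j n) (hu i) (hu j)
    rw [e1]
    exact hn

end Pool.Agent.H5O.H8
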