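import Pool.Agent.Helper1_Gen.Transfer
import Pool.Agent.Helper5_OPEN.DefsF

/-!
Module FTR, geometric part: complete fans around an interior point of a weakly convex polygon.
-/

namespace Pool.Agent.H5O.H8

open MeasureTheory Complex Filter Topology Set Pool.Agent.H16Iso Pool.Agent.H1Gen Pool.Agent.H5O
open scoped NNReal

variable {n : ℕ}

/-- consecutive vectors are positively oriented -/
def PosF (b : Fin (n + 3) → ℂ) : Prop := ∀ j, 0 < det (b j) (b (j + 1))

/-- the closed cone number `j` -/
def KF (b : Fin (n + 3) → ℂ) (j : Fin (n + 3)) : Set ℂ :=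
  {z | 0 ≤ det (b j) z ∧ 0 ≤ det z (b (j + 1))}

theorem isClosed_KF (b : Fin (n + 3) → ℂ) (j : Fin (n + 3)) : IsClosed (KF b j) :=
  (isClosed_le continuous_const (continuous_det_right _)).inter
    (isClosed_le continuous_const (continuous_det_left _))

open Fin.CommRing in
theorem cyc_ind {P : Fin (n + 3) → Prop} (h : ∀ j, P j → P (j + 1)) {j₀ : Fin (n + 3)}
    (h0 : P j₀) (j : Fin (n + 3)) : P j := by
  have key : ∀ k : ℕ, P (j₀ + (k : Fin (n + 3))) := by
    intro k
    induction k with
    | zero => simpa using h0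
    | succ k ih =>
      have := h _ ih
      rw [add_assoc] at this
      rw [Nat.cast_succ]
      exact this
  have h1 := key (j - j₀).val
  rw [Fin.cast_val_eq_self] at h1
  have h2 : j₀ + (j - j₀) = j := by abel
  rw [h2] at h1
  exact h1

/-- no positively oriented closed chain lies on one side of a line through the origin -/
theorem no_half {b : Fin (n + 3) → ℂ} (hP : PosF b) {z : ℂ} (hz : z ≠ 0)
    (hs : ∀ j, 0 < det (b j) z * det (b (j + 1)) z) : False := by
  have hzz : 0 < z.re ^ 2 + z.im ^ 2 := by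
    have : z.re ≠ 0 ∨ z.im ≠ 0 := by
      by_contra hn
      push Not at hn
      exact hz (Complex.ext hn.1 hn.2)
    rcases this with h | h
    · positivity
    · positivity
  have hne : ∀ j, det (b j) z ≠ 0 := by
    intro j h
    have := hs j
    rw [h, zero_mul] at this
    exact lt_irrefl _ this
  set φ : Fin (n + 3) → ℝ := fun j => ((b j).re * z.re + (b j).im * z.im) / det (b j) z with hφ
  have hlt : ∀ j, φ j < φ (j + 1) := by
    intro j
    have h1 : φ (j + 1) - φ j =
        (z.re ^ 2 + z.im ^ 2) * det (b j) (b (j + 1)) / (det (b j) z * det (b (j + 1)) z) := by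
      have ha := hne j
      have hb := hne (j + 1)
      simp only [hφ]
      rw [div_sub_div _ _ hb ha, div_eq_div_iff (mul_ne_zero hb ha) (mul_ne_zero ha hb)]
      unfold det
      ring
    have h2 : 0 < φ (j + 1) - φ j := by
      rw [h1]
      exact div_pos (mul_pos hzz (hP j)) (hs j)
    linarith
  have h3 : ∑ j, φ j < ∑ j, φ (j + 1) :=
    Finset.sum_lt_sum_of_nonempty Finset.univ_nonempty fun j _ => hlt j
  have h4 : ∑ j, φ (j + 1) = ∑ j, φ j := Equiv.sum_comp (Equiv.addRight (1 : Fin (n + 3))) φ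
  rw [h4] at h3
  exact lt_irrefl _ h3

/-- the cones cover the plane -/
theorem exists_KF {b : Fin (n + 3) → ℂ} (hP : PosF b) (z : ℂ) : ∃ j, z ∈ KF b j := by
  by_contra hn
  push Not at hn
  have hz : z ≠ 0 := by
    rintro rfl
    refine hn 0 ⟨?_, ?_⟩
    · rw [det_zero_right]
    · rw [det_zero_left]
  have hstep : ∀ j, 0 ≤ det (b j) z → 0 < det (b (j + 1)) z := by
    intro j hj
    by_contra hlt
    push Not at hlt
    refine hn j ⟨hj, ?_⟩
    rw [det_swap]
    linarith
  by_cases hex : ∃ j, 0 ≤ det (b j) z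
  · obtain ⟨j₀, hj₀⟩ := hex
    have hall : ∀ j, 0 < det (b j) z :=
      cyc_ind (P := fun j => 0 < det (b j) z) (fun j hj => hstep j hj.le) (hstep j₀ hj₀)
    exact no_half hP hz fun j => mul_pos (hall j) (hall (j + 1))
  · push Not at hex
    exact no_half hP hz fun j => mul_pos_of_neg_of_neg (hex j) (hex (j + 1))

/-- cyclic order -/
def Cy (i j k : Fin (n + 3)) : Prop := (i < j ∧ j < k) ∨ (j < k ∧ k < i) ∨ (k < i ∧ i < j)

theorem wc_cy {b : Fin (n + 3) → ℂ} (hW : WC b) {i j k : Fin (n + 3)} (h : Cy i j k) :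
    0 ≤ det (b j - b i) (b k - b i) := by
  rcases h with ⟨h1, h2⟩ | ⟨h1, h2⟩ | ⟨h1, h2⟩
  · exact hW i j k h1 h2
  · have := hW j k i h1 h2
    have e : det (b j - b i) (b k - b i) = det (b k - b j) (b i - b j) := by
      simp only [det, sub_re, sub_im]; ring
    rw [e]; exact this
  · have := hW k i j h1 h2
    have e : det (b j - b i) (b k - b i) = det (b i - b k) (b j - b k) := by
      simp only [det, sub_re, sub_im]; ring
    rw [e]; exact this

theorem val_succ_cases (j : Fin (n + 3)) :
    (j.val + 1 = n + 3 ∧ (j + 1).val = 0) ∨ (j.val + 1 < n + 3 ∧ (j + 1).val = j.val + 1) := by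
  have h := j.isLt
  rcases Nat.lt_or_ge (j.val + 1) (n + 3) with h1 | h1
  · right
    refine ⟨h1, ?_⟩
    rw [Fin.val_add_one_of_lt]
    rw [Fin.lt_def]
    simp only [Fin.val_last]
    omega
  · left
    have h2 : j.val + 1 = n + 3 := by omega
    refine ⟨h2, ?_⟩
    have h3 : j = Fin.last (n + 2) := by
      apply Fin.ext
      simp only [Fin.val_last]
      omega
    rw [h3, Fin.last_add_one]
    rfl

theorem succ_ne (j : Fin (n + 3)) : j + 1 ≠ j := by
  intro h
  have h1 := congrArg Fin.val h
  rcases val_succ_cases j with h2 | h2 <;> omega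

/-- all the vertices are on the left of each side -/
theorem side_nonneg {b : Fin (n + 3) → ℂ} (hW : WC b) (j k : Fin (n + 3)) :
    0 ≤ det (b (j + 1) - b j) (b k - b j) := by
  by_cases h1 : k = j
  · rw [h1, sub_self, det_zero_right]
  by_cases h2 : k = j + 1
  · rw [h2, det_self]
  apply wc_cy hW
  unfold Cy
  simp only [Fin.lt_def]
  have h3 : k.val ≠ j.val := fun h => h1 (Fin.ext h)
  have h4 : k.val ≠ (j + 1).val := fun h => h2 (Fin.ext h)
  have h5 := k.isLt
  rcases val_succ_cases j with h6 | h6 <;> omega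

theorem plu (a b c : ℂ) : det a b • c + det b c • a + det c a • b = 0 := by
  apply Complex.ext
  · simp only [add_re, smul_re, smul_eq_mul, det, zero_re]; ring
  · simp only [add_im, smul_im, smul_eq_mul, det, zero_im]; ring

/-- the sequence of signs changes only once from nonnegative to negative -/
theorem desc_unique_lt {b : Fin (n + 3) → ℂ} (hP : PosF b) (hW : WC b) {z : ℂ}
    {j l : Fin (n + 3)} (hjl : j < l) (h1 : 0 ≤ det (b j) z) (h2 : det (b (j + 1)) z < 0)
    (h3 : 0 ≤ det (b l) z) (h4 : det (b (l + 1)) z < 0) : False := by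
  have e1 : l ≠ j + 1 := by
    intro h; rw [h] at h3; linarith
  have e2 : j ≠ l + 1 := by
    intro h; rw [h] at h1; linarith
  have e1' : l.val ≠ (j + 1).val := fun h => e1 (Fin.ext h)
  have e2' : j.val ≠ (l + 1).val := fun h => e2 (Fin.ext h)
  have hl := l.isLt
  have hjl' : j.val < l.val := hjl
  have hj1 : (j + 1).val = j.val + 1 := by
    rcases val_succ_cases j with h | h
    · omega
    · exact h.2
  have hA : 0 ≤ det (b (j + 1) - b j) (b l - b j) := side_nonneg hW j l
  have hC : 0 ≤ det (b (j + 1) - b j) (b (l + 1) - b j) := side_nonneg hW j (l + 1)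
  have hB : 0 ≤ det (b l - b j) (b (l + 1) - b j) := by
    apply wc_cy hW
    unfold Cy
    simp only [Fin.lt_def]
    rcases val_succ_cases l with h6 | h6 <;> omega
  have hD : 0 ≤ det (b l - b (j + 1)) (b (l + 1) - b (j + 1)) := by
    apply wc_cy hW
    unfold Cy
    simp only [Fin.lt_def]
    rcases val_succ_cases l with h6 | h6 <;> omega
  generalize hx1 : b j = x1 at *
  generalize hx2 : b (j + 1) = x2 at *
  generalize hx3 : b l = x3 at *
  generalize hx4 : b (l + 1) = x4 at *
  have i1 : det (x2 - x1) (x3 - x1) + det (x3 - x1) (x4 - x1) =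
      det (x2 - x1) (x4 - x1) + det (x3 - x2) (x4 - x2) := by
    simp only [det, sub_re, sub_im]; ring
  have i2 : det (x3 - x2) (x4 - x2) * det x1 z + det (x2 - x1) (x4 - x1) * det x3 z =
      det (x3 - x1) (x4 - x1) * det x2 z + det (x2 - x1) (x3 - x1) * det x4 z := by
    simp only [det, sub_re, sub_im]; ring
  have j1 : 0 ≤ det (x3 - x2) (x4 - x2) * det x1 z := mul_nonneg hD h1
  have j2 : 0 ≤ det (x2 - x1) (x4 - x1) * det x3 z := mul_nonneg hC h3
  have j3 : det (x3 - x1) (x4 - x1) * det x2 z ≤ 0 := mul_nonpos_of_nonneg_of_nonpos hB h2.le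
  have j4 : det (x2 - x1) (x3 - x1) * det x4 z ≤ 0 := mul_nonpos_of_nonneg_of_nonpos hA h4.le
  have k3 : det (x3 - x1) (x4 - x1) * det x2 z = 0 := by linarith
  have k4 : det (x2 - x1) (x3 - x1) * det x4 z = 0 := by linarith
  have zB : det (x3 - x1) (x4 - x1) = 0 := by
    rcases mul_eq_zero.1 k3 with h | h
    · exact h
    · exact absurd h h2.ne
  have zA : det (x2 - x1) (x3 - x1) = 0 := by
    rcases mul_eq_zero.1 k4 with h | h
    · exact h
    · exact absurd h h4.ne
  have zC : det (x2 - x1) (x4 - x1) = 0 := by linarith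
  -- a vertex which is not on the line
  have hDj : 0 < det x1 x2 := by rw [← hx1, ← hx2]; exact hP j
  obtain ⟨m, hm⟩ : ∃ m, 0 < det (x2 - x1) (b m - x1) := by
    by_contra hn
    push Not at hn
    have hz : ∀ m, det (x2 - x1) (b m) < 0 := by
      intro m
      have := hn m
      rw [det_sub_right] at this
      have e : det (x2 - x1) x1 = - det x1 x2 := by
        rw [det_sub_left, det_self, det_swap x2 x1]; ring
      rw [e] at this
      linarith
    obtain ⟨k, hk⟩ := exists_KF hP (-x1)
    have h5 := cramer (hP k).ne' (-x1)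
    have h6 : det (x2 - x1) (-x1) = det x1 x2 := by
      rw [det_neg_right, det_sub_left, det_self, det_swap x2 x1]; ring
    rw [h5] at h6
    rw [det_add_right, det_smul_right, det_smul_right] at h6
    have h7 : 0 ≤ det (-x1) (b (k + 1)) / det (b k) (b (k + 1)) := div_nonneg hk.2 (hP k).le
    have h8 : 0 ≤ det (b k) (-x1) / det (b k) (b (k + 1)) := div_nonneg hk.1 (hP k).le
    have h9 := mul_nonpos_of_nonneg_of_nonpos h7 (hz k).le
    have h10 := mul_nonpos_of_nonneg_of_nonpos h8 (hz (k + 1)).le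
    linarith
  have m1 : m ≠ j := by
    rintro rfl
    rw [hx1, sub_self, det_zero_right] at hm
    exact lt_irrefl _ hm
  have m2 : m ≠ j + 1 := by
    intro h
    rw [h, hx2, det_self] at hm
    exact lt_irrefl _ hm
  have m3 : m ≠ l := by
    rintro rfl
    rw [hx3, zA] at hm
    exact lt_irrefl _ hm
  have m4 : m ≠ l + 1 := by
    intro h
    rw [h, hx4, zC] at hm
    exact lt_irrefl _ hm
  have m1' : m.val ≠ j.val := fun h => m1 (Fin.ext h)
  have m2' : m.val ≠ (j + 1).val := fun h => m2 (Fin.ext h)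
  have m3' : m.val ≠ l.val := fun h => m3 (Fin.ext h)
  have m4' : m.val ≠ (l + 1).val := fun h => m4 (Fin.ext h)
  have hmlt := m.isLt
  have hsd : det (x2 - x1) z < 0 := by rw [det_sub_left]; linarith
  by_cases hpos : (j + 1).val < m.val ∧ m.val < l.val
  · have hE : 0 ≤ det (b j - b (l + 1)) (b m - b (l + 1)) := by
      apply wc_cy hW
      unfold Cy
      simp only [Fin.lt_def]
      rcases val_succ_cases l with h6 | h6 <;> omega
    rw [hx1, hx4] at hE
    have p1 := plu (x2 - x1) (x4 - x1) z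
    rw [zC, zero_smul, zero_add] at p1
    have p2 : det (x4 - x1) z * det (x2 - x1) (b m - x1) +
        det z (x2 - x1) * det (x4 - x1) (b m - x1) = 0 := by
      rw [← det_smul_left, ← det_smul_left, ← det_add_left, p1, det_zero_left]
    have p3 : det (x1 - x4) (b m - x4) = - det (x4 - x1) (b m - x1) := by
      simp only [det, sub_re, sub_im]; ring
    rw [p3] at hE
    have p4 : det (x4 - x1) z < 0 := by rw [det_sub_left]; linarith
    have p5 := mul_neg_of_neg_of_pos p4 hm
    rw [det_swap z] at p2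
    have p6 : 0 ≤ (- det (x2 - x1) z) * (- det (x4 - x1) (b m - x1)) :=
      mul_nonneg (by linarith) hE
    linarith
  · have hE : 0 ≤ det (b l - b (j + 1)) (b m - b (j + 1)) := by
      apply wc_cy hW
      unfold Cy
      simp only [Fin.lt_def]
      rcases val_succ_cases l with h6 | h6 <;> omega
    rw [hx2, hx3] at hE
    have z1 : det (x2 - x1) (x3 - x2) = 0 := by
      have e : det (x2 - x1) (x3 - x2) = det (x2 - x1) (x3 - x1) := by
        simp only [det, sub_re, sub_im]; ring
      rw [e, zA]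
    have p1 := plu (x2 - x1) (x3 - x2) z
    rw [z1, zero_smul, zero_add] at p1
    have p2 : det (x3 - x2) z * det (x2 - x1) (b m - x2) +
        det z (x2 - x1) * det (x3 - x2) (b m - x2) = 0 := by
      rw [← det_smul_left, ← det_smul_left, ← det_add_left, p1, det_zero_left]
    have p3 : det (x2 - x1) (b m - x2) = det (x2 - x1) (b m - x1) := by
      simp only [det, sub_re, sub_im]; ring
    rw [p3] at p2
    have p4 : 0 < det (x3 - x2) z := by rw [det_sub_left]; linarith
    have p5 := mul_pos p4 hm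
    rw [det_swap z] at p2
    have p6 : 0 ≤ (- det (x2 - x1) z) * det (x3 - x2) (b m - x2) :=
      mul_nonneg (by linarith) hE
    linarith

/-- descent -/
def Des (b : Fin (n + 3) → ℂ) (z : ℂ) (j : Fin (n + 3)) : Prop :=
  0 ≤ det (b j) z ∧ det (b (j + 1)) z < 0

theorem desc_unique {b : Fin (n + 3) → ℂ} (hP : PosF b) (hW : WC b) {z : ℂ}
    {j l : Fin (n + 3)} (h1 : Des b z j) (h2 : Des b z l) : j = l := by
  rcases lt_trichotomy j l with h | h | h
  · exact (desc_unique_lt hP hW h h1.1 h1.2 h2.1 h2.2).elim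
  · exact h
  · exact (desc_unique_lt hP hW h h2.1 h2.2 h1.1 h1.2).elim

theorem desc_of_mem {b : Fin (n + 3) → ℂ} (hP : PosF b) {z : ℂ} (hz0 : z ≠ 0)
    {j : Fin (n + 3)} (hz : z ∈ KF b j) :
    Des b z j ∨ (Des b z (j + 1) ∧ ∃ r : ℝ, 0 < r ∧ z = r • b (j + 1)) := by
  have hD := hP j
  by_cases h : det (b (j + 1)) z < 0
  · exact Or.inl ⟨hz.1, h⟩
  right
  have h1 : det z (b (j + 1)) = 0 := by
    have := hz.2
    rw [det_swap] at this
    rw [det_swap]
    push Not at h
    linarith
  have h2 := cramer hD.ne' z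
  rw [h1, zero_div, zero_smul, zero_add] at h2
  have h3 : 0 < det (b j) z / det (b j) (b (j + 1)) := by
    have h4 : 0 ≤ det (b j) z / det (b j) (b (j + 1)) := div_nonneg hz.1 hD.le
    rcases h4.lt_or_eq with h5 | h5
    · exact h5
    · exfalso
      rw [← h5, zero_smul] at h2
      exact hz0 h2
  refine ⟨⟨?_, ?_⟩, _, h3, h2⟩
  · rw [h2, det_smul_right, det_self, mul_zero]
  · rw [h2, det_smul_right, det_swap (b (j + 1 + 1)) (b (j + 1))]
    have := mul_pos h3 (hP (j + 1))
    linarith

/-- two closed cones meet at most along a common ray -/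
theorem cone_inter {b : Fin (n + 3) → ℂ} (hP : PosF b) (hW : WC b) {z : ℂ} (hz0 : z ≠ 0)
    {j l : Fin (n + 3)} (hjl : j ≠ l) (hj : z ∈ KF b j) (hl : z ∈ KF b l) :
    (l = j + 1 ∧ ∃ r : ℝ, 0 < r ∧ z = r • b l) ∨ (j = l + 1 ∧ ∃ r : ℝ, 0 < r ∧ z = r • b j) := by
  rcases desc_of_mem hP hz0 hj with h1 | ⟨h1, h1'⟩
  · rcases desc_of_mem hP hz0 hl with h2 | ⟨h2, h2'⟩
    · exact absurd (desc_unique hP hW h1 h2) hjl
    · right
      have := desc_unique hP hW h1 h2
      exact ⟨this, this ▸ h2'⟩
  · rcases desc_of_mem hP hz0 hl with h2 | ⟨h2, h2'⟩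
    · left
      have := desc_unique hP hW h2 h1
      exact ⟨this, this ▸ h1'⟩
    · exact absurd (add_right_cancel (desc_unique hP hW h1 h2)) hjl

/-- open cones are disjoint -/
theorem open_disjoint {b : Fin (n + 3) → ℂ} (hP : PosF b) (hW : WC b) {z : ℂ}
    {j l : Fin (n + 3)} (hj : 0 < det (b j) z ∧ 0 < det z (b (j + 1)))
    (hl : 0 < det (b l) z ∧ 0 < det z (b (l + 1))) : j = l := by
  refine desc_unique hP hW (z := z) ⟨hj.1.le, ?_⟩ ⟨hl.1.le, ?_⟩
  · rw [det_swap]; linarith [hj.2]
  · rw [det_swap]; linarith [hl.2]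

/-! ### the convex hull -/

theorem ray_mem {b : Fin (n + 3) → ℂ} (hP : PosF b) {z : ℂ} (hz0 : z ≠ 0) :
    ∃ r : ℝ, 0 < r ∧ r • z ∈ convexHull ℝ (range b) := by
  obtain ⟨j, hj⟩ := exists_KF hP z
  have h1 := cramer (hP j).ne' z
  set α := det z (b (j + 1)) / det (b j) (b (j + 1)) with hα
  set β := det (b j) z / det (b j) (b (j + 1)) with hβ
  have hα0 : 0 ≤ α := div_nonneg hj.2 (hP j).le
  have hβ0 : 0 ≤ β := div_nonneg hj.1 (hP j).le
  have hs : 0 < α + β := by
    rcases (add_nonneg hα0 hβ0).lt_or_eq with h | h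
    · exact h
    · exfalso
      have a0 : α = 0 := by linarith
      have b0 : β = 0 := by linarith
      rw [a0, b0, zero_smul, zero_smul, add_zero] at h1
      exact hz0 h1
  refine ⟨(α + β)⁻¹, inv_pos.2 hs, ?_⟩
  rw [h1, smul_add, smul_smul, smul_smul]
  refine (convex_convexHull ℝ _) (subset_convexHull ℝ _ (mem_range_self j))
    (subset_convexHull ℝ _ (mem_range_self (j + 1))) ?_ ?_ ?_
  · positivity
  · positivity
  · field_simp

theorem zero_mem_hull {b : Fin (n + 3) → ℂ} (hP : PosF b) : (0 : ℂ) ∈ convexHull ℝ (range b) := by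
  obtain ⟨r, hr, h1⟩ := ray_mem hP (z := 1) one_ne_zero
  obtain ⟨s, hs, h2⟩ := ray_mem hP (z := -1) (by simp)
  have h3 := (convex_convexHull ℝ (range b)) h1 h2 (a := s / (r + s)) (b := r / (r + s))
    (by positivity) (by positivity) (by field_simp; ring)
  have h4 : (s / (r + s)) • r • (1 : ℂ) + (r / (r + s)) • s • (-1 : ℂ) = 0 := by
    rw [smul_smul, smul_smul]
    have : s / (r + s) * r = r / (r + s) * s := by ring
    rw [this, smul_neg, add_neg_cancel]
  rw [h4] at h3
  exact h3

theorem zero_mem_interior {b : Fin (n + 3) → ℂ} (hP : PosF b) :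
    (0 : ℂ) ∈ interior (convexHull ℝ (range b)) := by
  obtain ⟨r1, hr1, h1⟩ := ray_mem hP (z := 1) one_ne_zero
  obtain ⟨r2, hr2, h2⟩ := ray_mem hP (z := -1) (by simp)
  obtain ⟨r3, hr3, h3⟩ := ray_mem hP (z := I) I_ne_zero
  obtain ⟨r4, hr4, h4⟩ := ray_mem hP (z := -I) (by simp)
  have h0 := zero_mem_hull hP
  have hC := convex_convexHull ℝ (range b)
  set m : ℝ := min (min r1 r2) (min r3 r4) with hm
  have hm0 : 0 < m := by positivity
  -- axis points
  have hx : ∀ x : ℝ, |x| ≤ m / 2 → ((2 * x : ℝ) : ℂ) ∈ convexHull ℝ (range b) := by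
    intro x hx
    rcases le_total 0 x with h | h
    · rw [abs_of_nonneg h] at hx
      have e : ((2 * x : ℝ) : ℂ) = (1 - 2 * x / r1) • (0 : ℂ) + (2 * x / r1) • (r1 • (1 : ℂ)) := by
        rw [smul_zero, zero_add, smul_smul, div_mul_cancel₀ _ hr1.ne']
        simp
      rw [e]
      have hle : 2 * x ≤ r1 := by
        have : m ≤ r1 := (min_le_left _ _).trans (min_le_left _ _)
        linarith
      exact hC h0 h1 (sub_nonneg.2 ((div_le_one hr1).2 hle)) (by positivity) (by ring)
    · rw [abs_of_nonpos h] at hx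
      have e : ((2 * x : ℝ) : ℂ) = (1 - 2 * (-x) / r2) • (0 : ℂ) +
          (2 * (-x) / r2) • (r2 • (-1 : ℂ)) := by
        rw [smul_zero, zero_add, smul_smul, div_mul_cancel₀ _ hr2.ne']
        simp
      rw [e]
      have hle : 2 * (-x) ≤ r2 := by
        have : m ≤ r2 := (min_le_left _ _).trans (min_le_right _ _)
        linarith
      exact hC h0 h2 (sub_nonneg.2 ((div_le_one hr2).2 hle))
        (div_nonneg (by linarith) hr2.le) (by ring)
  have hy : ∀ x : ℝ, |x| ≤ m / 2 → ((2 * x : ℝ) : ℂ) * I ∈ convexHull ℝ (range b) := by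
    intro x hx
    rcases le_total 0 x with h | h
    · rw [abs_of_nonneg h] at hx
      have e : ((2 * x : ℝ) : ℂ) * I =
          (1 - 2 * x / r3) • (0 : ℂ) + (2 * x / r3) • (r3 • I) := by
        rw [smul_zero, zero_add, smul_smul, div_mul_cancel₀ _ hr3.ne']
        simp
      rw [e]
      have hle : 2 * x ≤ r3 := by
        have : m ≤ r3 := (min_le_right _ _).trans (min_le_left _ _)
        linarith
      exact hC h0 h3 (sub_nonneg.2 ((div_le_one hr3).2 hle)) (by positivity) (by ring)
    · rw [abs_of_nonpos h] at hx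
      have e : ((2 * x : ℝ) : ℂ) * I = (1 - 2 * (-x) / r4) • (0 : ℂ) +
          (2 * (-x) / r4) • (r4 • (-I)) := by
        rw [smul_zero, zero_add, smul_smul, div_mul_cancel₀ _ hr4.ne']
        simp
      rw [e]
      have hle : 2 * (-x) ≤ r4 := by
        have : m ≤ r4 := (min_le_right _ _).trans (min_le_right _ _)
        linarith
      exact hC h0 h4 (sub_nonneg.2 ((div_le_one hr4).2 hle))
        (div_nonneg (by linarith) hr4.le) (by ring)
  rw [mem_interior]
  refine ⟨Metric.ball 0 (m / 2), ?_, Metric.isOpen_ball, Metric.mem_ball_self (by positivity)⟩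
  intro z hz
  rw [mem_ball_zero_iff] at hz
  have e1 : |z.re| ≤ m / 2 := (abs_re_le_norm z).trans hz.le
  have e2 : |z.im| ≤ m / 2 := (abs_im_le_norm z).trans hz.le
  have e : z = (1 / 2 : ℝ) • ((2 * z.re : ℝ) : ℂ) + (1 / 2 : ℝ) • (((2 * z.im : ℝ) : ℂ) * I) := by
    apply Complex.ext
    · simp
    · simp
  rw [e]
  exact hC (hx _ e1) (hy _ e2) (by norm_num) (by norm_num) (by norm_num)

/-- on the cone number `j`, the interior of the hull is given by one inequality -/
theorem mem_hull_iff {b : Fin (n + 3) → ℂ} (hP : PosF b) (hW : WC b) {z : ℂ}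
    {j : Fin (n + 3)} (hz : z ∈ KF b j) :
    z ∈ interior (convexHull ℝ (range b)) ↔
      det (b j) z + det z (b (j + 1)) < det (b j) (b (j + 1)) := by
  have hD := hP j
  constructor
  · intro h
    have hw : b (j + 1) - b j ≠ 0 := by
      intro h0
      have h1 : b (j + 1) = b j := sub_eq_zero.1 h0
      rw [h1, det_self] at hD
      exact lt_irrefl _ hD
    have h1 := strict_of_interior (S := convexHull ℝ (range b)) (c := b j) hw
      (hull_det_nonneg (side_nonneg hW j)) h
    have e : det (b (j + 1) - b j) (z - b j) =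
        det (b j) (b (j + 1)) - (det (b j) z + det z (b (j + 1))) := by
      simp only [det, sub_re, sub_im]; ring
    rw [e] at h1
    linarith
  · intro h
    have h1 := cramer hD.ne' z
    set α := det z (b (j + 1)) / det (b j) (b (j + 1)) with hα
    set β := det (b j) z / det (b j) (b (j + 1)) with hβ
    have hα0 : 0 ≤ α := div_nonneg hz.2 hD.le
    have hβ0 : 0 ≤ β := div_nonneg hz.1 hD.le
    have hs : α + β < 1 := by
      rw [hα, hβ, ← add_div, div_lt_one hD]
      linarith
    rcases (add_nonneg hα0 hβ0).lt_or_eq with hp | hp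
    · have h2 : z = (1 - (α + β)) • (0 : ℂ) +
          (α + β) • ((α / (α + β)) • b j + (β / (α + β)) • b (j + 1)) := by
        rw [smul_zero, zero_add, smul_add, smul_smul, smul_smul, mul_div_cancel₀ _ hp.ne',
          mul_div_cancel₀ _ hp.ne']
        exact h1
      rw [h2]
      refine (convex_convexHull ℝ _).combo_interior_self_mem_interior (zero_mem_interior hP) ?_
        (by linarith) hp.le (by ring)
      refine (convex_convexHull ℝ _) (subset_convexHull ℝ _ (mem_range_self j))
        (subset_convexHull ℝ _ (mem_range_self (j + 1))) (by positivity) (by positivity) ?_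
      rw [← add_div, div_self hp.ne']
    · have a0 : α = 0 := by linarith
      have b0 : β = 0 := by linarith
      rw [a0, b0, zero_smul, zero_smul, add_zero] at h1
      rw [h1]
      exact zero_mem_interior hP

end Pool.Agent.H5O.H8
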